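import Pool.Agent.H25.CFL.Targets

set_option autoImplicit false

/-!
# MP_e37c09_lc, the cofinality law: row S4
-/

namespace Pool.Agent.H81.HCL

open Ordinal Cardinal Order Set
open scoped ZFSet
open _root_.HD Pool.Agent.H25.CFL

universe u

/-- an ordinal with a countable unbounded subset (strictly) is of cofinality `ω` -/
theorem cof_of_countable {lam : Ordinal.{u}} (h0 : lam ≠ 0) (S : Set Ordinal.{u})
    (hc : S.Countable) (h1 : ∀ x ∈ S, x < lam) (h2 : ∀ y < lam, ∃ x ∈ S, y < x) :
    lam.cof = ℵ₀ := by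
  have hlim : IsSuccLimit lam := by
    refine ⟨?_, fun y hy => ?_⟩
    · intro hm
      exact h0 (isMin_iff_eq_bot.1 hm)
    · obtain ⟨x, hx, hyx⟩ := h2 y hy.lt
      exact hy.2 hyx (h1 x hx)
  refine le_antisymm ?_ (aleph0_le_cof_iff.2 (one_lt_cof_iff.2 hlim))
  by_contra hlt
  push Not at hlt
  have hne : S.Nonempty := by
    obtain ⟨x, hx, -⟩ := h2 0 (pos_iff_ne_zero.2 h0)
    exact ⟨x, hx⟩
  obtain ⟨f, hf⟩ := hc.exists_eq_range hne
  have hf1 : ∀ i, f i < lam := fun i => h1 _ (by rw [hf]; exact ⟨i, rfl⟩)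
  have hsup : (⨆ i : ULift.{u} ℕ, f i.down) < lam := by
    refine iSup_lt_of_lt_cof ?_ fun i => hf1 _
    simpa using hlt
  obtain ⟨x, hx, hyx⟩ := h2 _ hsup
  rw [hf] at hx
  obtain ⟨i, rfl⟩ := hx
  exact absurd hyx (not_lt.2 (Ordinal.le_iSup (fun i : ULift.{u} ℕ => f i.down) ⟨i⟩))

theorem pf_S4 (hS0 : T_S0.{u}) (hS1 : T_S1.{u}) (hS2 : Pool.Agent.H25.CFL.T_S2.{u}) (hS3 : T_S3.{u})
    (hSRG : T_SRG.{u}) : T_S4.{u} := by
  intro D γ lam hD hDγ hOm
  induction lam using WellFoundedLT.induction with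
  | ind lam ih =>
    intro hcount
    have ih' : ∀ b < lam, SU γ b := by
      intro b hb
      refine ih b hb (hcount.mono fun x (hx : x ∈ SH γ b) => ?_)
      exact (⟨hx.1, hx.2.1.trans hb, hx.2.2⟩ : x ∈ SH γ lam)
    rcases le_or_gt lam γ with hle | hgt
    · exact hS0 γ lam hOm.1 hle
    · by_cases hcard : CardHOD lam
      · by_cases ha : ∀ y < lam, ∃ x, y < x ∧ x < lam ∧ CardHOD x
        · refine hS2 γ lam ?_ ih'
          refine cof_of_countable (fun h => ?_) (SH γ lam) hcount (fun x hx => hx.2.1)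
            fun y hy => ?_
          · rw [h] at hgt
            exact absurd hgt (not_lt.2 zero_le)
          · obtain ⟨x, h3, h4, h5⟩ := ha (max y γ) (max_lt hy hgt)
            exact ⟨x, ⟨(le_max_right _ _).trans h3.le, h4, h5⟩, (le_max_left _ _).trans_lt h3⟩
        · push Not at ha
          obtain ⟨y, hy, hyx⟩ := ha
          have hom : ω < lam := by
            have h6 : ω ≤ D.ord := by
              rw [← Cardinal.ord_aleph0]
              exact Cardinal.ord_le_ord.2 hD.2.2.1.le
            exact (h6.trans_lt hDγ).trans hgt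
          have hreg : RegHOD lam := hSRG lam hcard hom ⟨y, hy, hyx⟩
          exact hS2 γ lam (hS3 D γ lam hD hDγ hOm hgt.le hreg hcount) ih'
      · have h7 : ∃ b < lam, OntoHOD b lam := by
          unfold CardHOD at hcard
          push Not at hcard
          exact hcard
        obtain ⟨b, hb, hbo⟩ := h7
        exact hS1 γ lam b hbo (ih' b hb)

end Pool.Agent.H81.HCL
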